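import Mathlib

set_option autoImplicit false

namespace Pool.Agent.Results.MP_36bd7d_co.WalshBound

open Finset

variable {n : ℕ}

/-- The Walsh character of T at x, with values 1 and -1. -/
def chi (T x : Finset (Fin n)) : ℤ := (-1) ^ (T ∩ x).card

theorem chi_mul (T x y : Finset (Fin n)) : chi T x * chi T y = chi T (symmDiff x y) := by
  unfold chi
  rw [← pow_add]
  have h : (T ∩ x).card + (T ∩ y).card = (T ∩ symmDiff x y).card + 2 * (T ∩ x ∩ y).card := by
    have h1 : (T ∩ x).card = ((T ∩ x) \ y).card + (T ∩ x ∩ y).card := by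
      rw [← Finset.card_sdiff_add_card_inter (T ∩ x) y]
    have h2 : (T ∩ y).card = ((T ∩ y) \ x).card + (T ∩ x ∩ y).card := by
      rw [← Finset.card_sdiff_add_card_inter (T ∩ y) x]
      congr 2
      ext a; simp only [mem_inter]; tauto
    have h3 : (T ∩ symmDiff x y).card = ((T ∩ x) \ y).card + ((T ∩ y) \ x).card := by
      rw [← card_union_of_disjoint]
      · congr 1
        ext a; simp only [mem_inter, mem_symmDiff, mem_union, mem_sdiff]; tauto
      · rw [disjoint_left]
        intro a ha hb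
        simp only [mem_sdiff, mem_inter] at ha hb
        exact hb.2 ha.1.2
    omega
  rw [h, pow_add, pow_mul]
  simp

theorem chi_abs (T x : Finset (Fin n)) : |chi T x| = 1 := by
  unfold chi
  rw [abs_pow]; simp

theorem chi_empty_left (x : Finset (Fin n)) : chi ∅ x = 1 := by
  simp [chi]

theorem chi_comm (T x : Finset (Fin n)) : chi T x = chi x T := by
  unfold chi; rw [inter_comm]

theorem sum_chi (s : Finset (Fin n)) :
    ∑ T : Finset (Fin n), chi T s = if s = ∅ then 2 ^ n else 0 := by
  split_ifs with hs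
  · subst hs
    simp [chi]
  · obtain ⟨i, hi⟩ := Finset.nonempty_iff_ne_empty.2 hs
    have h : ∑ T : Finset (Fin n), chi T s = ∑ T : Finset (Fin n), -chi T s := by
      refine Finset.sum_bij' (fun T _ => symmDiff T {i}) (fun T _ => symmDiff T {i})
        (by simp) (by simp) (by intro T _; simp) (by intro T _; simp) ?_
      intro T _
      have h1 : chi (symmDiff T {i}) s = chi T s * chi {i} s := by
        rw [chi_comm, ← chi_mul, chi_comm s, chi_comm s]
      have h2 : chi {i} s = -1 := by
        unfold chi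
        rw [Finset.singleton_inter_of_mem hi]
        simp
      rw [h1, h2]; ring
    rw [Finset.sum_neg_distrib] at h
    linarith

/-- The Walsh transform of the family G. -/
def tr (G : Finset (Finset (Fin n))) (T : Finset (Fin n)) : ℤ := ∑ x ∈ G, chi T x

theorem tr_empty (G : Finset (Finset (Fin n))) : tr G ∅ = G.card := by
  simp [tr, chi_empty_left]

theorem parseval (G : Finset (Finset (Fin n))) :
    ∑ T : Finset (Fin n), tr G T ^ 2 = 2 ^ n * G.card := by
  have h : ∀ T : Finset (Fin n), tr G T ^ 2 = ∑ x ∈ G, ∑ y ∈ G, chi T (symmDiff x y) := by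
    intro T
    rw [pow_two]
    unfold tr
    rw [Finset.sum_mul_sum]
    exact Finset.sum_congr rfl fun x _ => Finset.sum_congr rfl fun y _ => chi_mul T x y
  simp only [h]
  rw [Finset.sum_comm]
  have h2 : ∀ x ∈ G, ∑ T : Finset (Fin n), ∑ y ∈ G, chi T (symmDiff x y) = 2 ^ n := by
    intro x hx
    rw [Finset.sum_comm]
    rw [Finset.sum_eq_single x]
    · rw [sum_chi]; simp
    · intro y _ hyx
      rw [sum_chi, if_neg]
      intro h
      exact hyx (by simpa [eq_comm] using h)
    · intro h; exact absurd hx h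
  rw [Finset.sum_congr rfl h2]
  simp [mul_comm]

theorem cubic (G : Finset (Finset (Fin n)))
    (hG : ∀ x ∈ G, ∀ y ∈ G, ∀ z ∈ G, symmDiff (symmDiff x y) z ≠ ∅) :
    ∑ T : Finset (Fin n), tr G T ^ 3 = 0 := by
  have h : ∀ T : Finset (Fin n),
      tr G T ^ 3 = ∑ x ∈ G, ∑ y ∈ G, ∑ z ∈ G, chi T (symmDiff (symmDiff x y) z) := by
    intro T
    have : tr G T ^ 3 = (∑ x ∈ G, chi T x) * (∑ y ∈ G, chi T y) * (∑ z ∈ G, chi T z) := by
      unfold tr; ring
    rw [this, Finset.sum_mul_sum, Finset.sum_mul]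
    refine Finset.sum_congr rfl fun x _ => ?_
    rw [Finset.sum_mul]
    refine Finset.sum_congr rfl fun y _ => ?_
    rw [Finset.mul_sum]
    refine Finset.sum_congr rfl fun z _ => ?_
    rw [chi_mul, chi_mul]
  simp only [h]
  rw [Finset.sum_comm]
  refine Finset.sum_eq_zero fun x hx => ?_
  rw [Finset.sum_comm]
  refine Finset.sum_eq_zero fun y hy => ?_
  rw [Finset.sum_comm]
  refine Finset.sum_eq_zero fun z hz => ?_
  rw [sum_chi, if_neg (hG x hx y hy z hz)]

/-- For an up-set the transform at T is bounded by the influence of every element of T. -/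
theorem tr_bound (G : Finset (Finset (Fin n))) (hup : ∀ x ∈ G, ∀ y, x ⊆ y → y ∈ G)
    (T : Finset (Fin n)) (i : Fin n) (hi : i ∈ T) :
    |tr G T| ≤ (G.card : ℤ) - 2 * (G.filter (fun x => i ∉ x)).card := by
  classical
  set G0 := G.filter (fun x => i ∉ x) with hG0
  set G1 := G.filter (fun x => i ∈ x) with hG1
  have hcard : (G.card : ℤ) = G1.card + G0.card := by
    rw [hG0, hG1]
    exact_mod_cast (Finset.card_filter_add_card_filter_not (s := G) (fun x => i ∈ x)).symm
  have hsplit : tr G T = ∑ x ∈ G1, chi T x + ∑ x ∈ G0, chi T x := by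
    unfold tr
    rw [hG0, hG1, Finset.sum_filter_add_sum_filter_not]
  -- image of G0 under inserting i
  let J := G0.image (fun x => insert i x)
  have hinj : Set.InjOn (fun x : Finset (Fin n) => insert i x) (G0 : Set (Finset (Fin n))) := by
    intro x hx y hy hxy
    have hx' : i ∉ x := by
      have := Finset.mem_coe.1 hx; rw [hG0, mem_filter] at this; exact this.2
    have hy' : i ∉ y := by
      have := Finset.mem_coe.1 hy; rw [hG0, mem_filter] at this; exact this.2
    have : (insert i x).erase i = (insert i y).erase i := by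
      simp only at hxy; rw [hxy]
    rwa [erase_insert hx', erase_insert hy'] at this
  have hJsub : J ⊆ G1 := by
    intro y hy
    obtain ⟨x, hx, rfl⟩ := Finset.mem_image.1 hy
    rw [hG0, mem_filter] at hx
    rw [hG1, mem_filter]
    exact ⟨hup x hx.1 _ (subset_insert i x), mem_insert_self i x⟩
  have hJcard : J.card = G0.card := Finset.card_image_of_injOn hinj
  have hJsum : ∑ y ∈ J, chi T y = -∑ x ∈ G0, chi T x := by
    rw [Finset.sum_image hinj, ← Finset.sum_neg_distrib]
    refine Finset.sum_congr rfl fun x hx => ?_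
    rw [hG0, mem_filter] at hx
    unfold chi
    have : (T ∩ insert i x).card = (T ∩ x).card + 1 := by
      rw [Finset.inter_insert_of_mem hi, card_insert_of_notMem]
      simp [hx.2]
    rw [this, pow_succ]; ring
  have h1 : ∑ x ∈ G1, chi T x = ∑ x ∈ G1 \ J, chi T x + ∑ x ∈ J, chi T x :=
    (Finset.sum_sdiff hJsub).symm
  have h2 : tr G T = ∑ x ∈ G1 \ J, chi T x := by
    rw [hsplit, h1, hJsum]; ring
  rw [h2]
  calc |∑ x ∈ G1 \ J, chi T x| ≤ ∑ x ∈ G1 \ J, |chi T x| := Finset.abs_sum_le_sum_abs _ _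
    _ = (G1 \ J).card := by simp [chi_abs]
    _ = (G1.card : ℤ) - J.card := by
        rw [Finset.card_sdiff_of_subset hJsub]
        have := Finset.card_le_card hJsub
        omega
    _ = _ := by rw [hJcard, hcard]; ring

/-- Main inequality for up-sets without three members meeting in the empty set. -/
theorem upset_ineq (G : Finset (Finset (Fin n))) (hne : G.Nonempty)
    (hup : ∀ x ∈ G, ∀ y, x ⊆ y → y ∈ G)
    (hG : ∀ x ∈ G, ∀ y ∈ G, ∀ z ∈ G, symmDiff (symmDiff x y) z ≠ ∅) (m : ℤ)
    (hm : ∀ i, m ≤ (G.filter (fun x => i ∉ x)).card) :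
    (G.card : ℤ) ^ 2 ≤ ((G.card : ℤ) - 2 * m) * (2 ^ n - G.card) := by
  have hb : ∀ T : Finset (Fin n), T ≠ ∅ → 0 ≤ tr G T ^ 2 * (tr G T + ((G.card : ℤ) - 2 * m)) := by
    intro T hT
    obtain ⟨i, hi⟩ := Finset.nonempty_iff_ne_empty.2 hT
    have h1 := (abs_le.1 (tr_bound G hup T i hi)).1
    have h2 := hm i
    refine mul_nonneg (sq_nonneg _) ?_
    linarith
  have h0 : 0 ≤ ∑ T ∈ (univ : Finset (Finset (Fin n))).erase ∅,
      tr G T ^ 2 * (tr G T + ((G.card : ℤ) - 2 * m)) :=
    Finset.sum_nonneg fun T hT => hb T (Finset.ne_of_mem_erase hT)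
  have h3 : ∑ T ∈ (univ : Finset (Finset (Fin n))).erase ∅,
      tr G T ^ 2 * (tr G T + ((G.card : ℤ) - 2 * m)) =
      (∑ T : Finset (Fin n), tr G T ^ 3 - (G.card : ℤ) ^ 3) +
      ((G.card : ℤ) - 2 * m) * (∑ T : Finset (Fin n), tr G T ^ 2 - (G.card : ℤ) ^ 2) := by
    rw [← Finset.sum_erase_add (univ : Finset (Finset (Fin n))) _ (mem_univ ∅),
      ← Finset.sum_erase_add (univ : Finset (Finset (Fin n))) (fun T => tr G T ^ 2) (mem_univ ∅),
      tr_empty]
    rw [add_sub_cancel_right, add_sub_cancel_right, Finset.mul_sum, ← Finset.sum_add_distrib]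
    refine Finset.sum_congr rfl fun T _ => ?_
    ring
  rw [h3, cubic G hG, parseval] at h0
  have hpos : (0 : ℤ) < G.card := by exact_mod_cast hne.card_pos
  have h4 : 0 ≤ (G.card : ℤ) * (((G.card : ℤ) - 2 * m) * (2 ^ n - G.card) - (G.card : ℤ) ^ 2) := by
    nlinarith [h0]
  have h5 := nonneg_of_mul_nonneg_right h4 hpos
  linarith

/-- The family of all subsets of members of F. -/
def lower (F : Finset (Finset (Fin n))) : Finset (Finset (Fin n)) :=
  univ.filter (fun S => ∃ X ∈ F, S ⊆ X)

theorem mem_lower {F : Finset (Finset (Fin n))} {S : Finset (Fin n)} :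
    S ∈ lower F ↔ ∃ X ∈ F, S ⊆ X := by
  simp [lower]

/-- If no three members of F cover, then some degree of F is small in terms of the number of
subsets of members of F. -/
theorem degree_ineq (hn : 1 ≤ n) (F : Finset (Finset (Fin n)))
    (hF : ∀ X ∈ F, ∀ Y ∈ F, ∀ Z ∈ F, X ∪ Y ∪ Z ≠ univ) :
    ∃ i : Fin n, 2 * ((F.filter (fun A => i ∈ A)).card : ℝ) * (2 ^ n - (lower F).card) ≤
      (lower F).card * (2 ^ n - 2 * (lower F).card) ∧ ((lower F).card : ℝ) < 2 ^ n := by
  classical
  have : Nonempty (Fin n) := ⟨⟨0, hn⟩⟩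
  set G : Finset (Finset (Fin n)) := (lower F).image (fun S => Sᶜ) with hGdef
  have hcinj : Function.Injective (fun S : Finset (Fin n) => Sᶜ) := compl_injective
  have hGcard : G.card = (lower F).card := Finset.card_image_of_injective _ hcinj
  have hmemG : ∀ x, x ∈ G ↔ xᶜ ∈ lower F := by
    intro x
    rw [hGdef, Finset.mem_image]
    constructor
    · rintro ⟨S, hS, rfl⟩; simpa using hS
    · intro h; exact ⟨xᶜ, h, by simp⟩
  have hup : ∀ x ∈ G, ∀ y, x ⊆ y → y ∈ G := by
    intro x hx y hxy
    rw [hmemG] at hx ⊢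
    rw [mem_lower] at hx ⊢
    obtain ⟨X, hX, hxX⟩ := hx
    exact ⟨X, hX, (Finset.compl_subset_compl.2 hxy).trans hxX⟩
  have hG : ∀ x ∈ G, ∀ y ∈ G, ∀ z ∈ G, symmDiff (symmDiff x y) z ≠ ∅ := by
    intro x hx y hy z hz h
    rw [hmemG, mem_lower] at hx hy hz
    obtain ⟨X, hX, hxX⟩ := hx
    obtain ⟨Y, hY, hyY⟩ := hy
    obtain ⟨Z, hZ, hzZ⟩ := hz
    apply hF X hX Y hY Z hZ
    rw [Finset.eq_univ_iff_forall]
    intro a
    have ha : a ∉ symmDiff (symmDiff x y) z := by rw [h]; simp
    simp only [mem_symmDiff] at ha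
    simp only [mem_union]
    by_cases hax : a ∈ x
    · by_cases hay : a ∈ y
      · by_cases haz : a ∈ z
        · exfalso; exact ha (by tauto)
        · exact Or.inr (hzZ (by simpa using haz))
      · exact Or.inl (Or.inr (hyY (by simpa using hay)))
    · exact Or.inl (Or.inl (hxX (by simpa using hax)))
  by_cases hne : G.Nonempty
  · -- choose i with the smallest number of members missing i
    obtain ⟨i, _, hi⟩ := Finset.exists_min_image (univ : Finset (Fin n))
      (fun i => (G.filter (fun x => i ∉ x)).card) univ_nonempty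
    have key := upset_ineq G hne hup hG ((G.filter (fun x => i ∉ x)).card)
      (fun j => by exact_mod_cast hi j (mem_univ j))
    have hdeg : (F.filter (fun A => i ∈ A)).card ≤ (G.filter (fun x => i ∉ x)).card := by
      refine Finset.card_le_card_of_injOn (fun S => Sᶜ) ?_ (hcinj.injOn)
      intro S hS
      have hS' := Finset.mem_filter.1 (Finset.mem_coe.1 hS)
      refine Finset.mem_coe.2 (Finset.mem_filter.2 ⟨?_, by simpa using hS'.2⟩)
      rw [hmemG, mem_lower]
      exact ⟨S, hS'.1, by simp⟩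
    have hpos : (0 : ℝ) < (lower F).card := by
      rw [← hGcard]; exact_mod_cast hne.card_pos
    have keyR : ((lower F).card : ℝ) ^ 2 ≤
        (((lower F).card : ℝ) - 2 * ((G.filter (fun x => i ∉ x)).card : ℝ)) *
          (2 ^ n - (lower F).card) := by
      rw [← hGcard]; exact_mod_cast key
    have hle : ((lower F).card : ℝ) ≤ 2 ^ n := by
      have : (lower F).card ≤ 2 ^ n := by
        calc (lower F).card ≤ (univ : Finset (Finset (Fin n))).card := Finset.card_le_univ _
          _ = 2 ^ n := by simp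
      exact_mod_cast this
    have hlt : ((lower F).card : ℝ) < 2 ^ n := by
      rcases hle.lt_or_eq with h | h
      · exact h
      · exfalso
        rw [h, sub_self, mul_zero] at keyR
        have : (0 : ℝ) < (2 ^ n) ^ 2 := by positivity
        linarith
    refine ⟨i, ?_, hlt⟩
    have hd : ((F.filter (fun A => i ∈ A)).card : ℝ) ≤ (G.filter (fun x => i ∉ x)).card := by
      exact_mod_cast hdeg
    nlinarith [mul_nonneg (sub_nonneg.2 hd) (sub_nonneg.2 hle)]
  · rw [Finset.not_nonempty_iff_eq_empty] at hne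
    have hl : lower F = ∅ := by
      rw [hne, Finset.card_empty] at hGcard
      exact Finset.card_eq_zero.1 hGcard.symm
    have hFe : F = ∅ := by
      rw [Finset.eq_empty_iff_forall_notMem]
      intro X hX
      have : X ∈ lower F := mem_lower.2 ⟨X, hX, subset_rfl⟩
      rw [hl] at this; simp at this
    refine ⟨Classical.arbitrary _, ?_, ?_⟩
    · rw [hFe]; simp [lower]
    · rw [hl]; simp

/-- A family F of subsets of an n-element set such that every element lies in more than
(3/2 - sqrt 2) * 2^n members, which is about 0.0858 * 2^n, has three members covering the ground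
set. If every element lies in more than 2^(n-4) members and the number of subsets of members
of F is at most (9 - sqrt 17)/32 * 2^n, which is about 0.1524 * 2^n, then again three members cover
the ground set. -/
theorem result :
    (∀ n : ℕ, 1 ≤ n → ∀ F : Finset (Finset (Fin n)),
      (∀ i : Fin n, (3 / 2 - Real.sqrt 2) * (2 : ℝ) ^ n <
        (((F.filter (fun A => i ∈ A)).card : ℕ) : ℝ)) →
      ∃ X ∈ F, ∃ Y ∈ F, ∃ Z ∈ F, X ∪ Y ∪ Z = Finset.univ) ∧
    (∀ n : ℕ, 1 ≤ n → ∀ F : Finset (Finset (Fin n)),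
      (∀ i : Fin n, (2 : ℝ) ^ ((n : ℤ) - 4) < (((F.filter (fun A => i ∈ A)).card : ℕ) : ℝ)) →
      (((univ.filter (fun S : Finset (Fin n) => ∃ X ∈ F, S ⊆ X)).card : ℕ) : ℝ) ≤
        (9 - Real.sqrt 17) / 32 * (2 : ℝ) ^ n →
      ∃ X ∈ F, ∃ Y ∈ F, ∃ Z ∈ F, X ∪ Y ∪ Z = Finset.univ) := by
  constructor
  · intro n hn F hd
    by_contra hcon
    push Not at hcon
    obtain ⟨i, h1, h2⟩ := degree_ineq hn F hcon
    have hi := hd i
    set g : ℝ := ((lower F).card : ℝ) with hg
    set N : ℝ := (2 : ℝ) ^ n with hN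
    set d : ℝ := ((F.filter (fun A => i ∈ A)).card : ℝ) with hdd
    have hNpos : 0 < N := by positivity
    have hs : Real.sqrt 2 ^ 2 = 2 := Real.sq_sqrt (by norm_num)
    have h3 : 2 * ((3 / 2 - Real.sqrt 2) * N) * (N - g) < 2 * d * (N - g) := by
      have : 0 < N - g := by linarith
      nlinarith
    have h4 : g * (N - 2 * g) ≤ 2 * ((3 / 2 - Real.sqrt 2) * N) * (N - g) := by
      have h5 : 0 ≤ 2 * (g - (1 - Real.sqrt 2 / 2) * N) ^ 2 := by positivity
      have h6 : 2 * ((3 / 2 - Real.sqrt 2) * N) * (N - g) - g * (N - 2 * g) =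
          2 * (g - (1 - Real.sqrt 2 / 2) * N) ^ 2 := by
        linear_combination (-(N ^ 2) / 2) * hs
      linarith
    linarith
  · intro n hn F hd hsmall
    by_contra hcon
    push Not at hcon
    obtain ⟨i, h1, h2⟩ := degree_ineq hn F hcon
    have hi := hd i
    have hlow : (((univ.filter (fun S : Finset (Fin n) => ∃ X ∈ F, S ⊆ X)).card : ℕ) : ℝ) =
        ((lower F).card : ℝ) := by
      unfold lower
      congr!
    rw [hlow] at hsmall
    set g : ℝ := ((lower F).card : ℝ) with hg
    have hpow : (2 : ℝ) ^ ((n : ℤ) - 4) = (2 : ℝ) ^ n / 16 := by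
      rw [zpow_sub₀ (by norm_num)]; norm_num
    rw [hpow] at hi
    set N : ℝ := (2 : ℝ) ^ n with hN
    set d : ℝ := ((F.filter (fun A => i ∈ A)).card : ℝ) with hdd
    have hNpos : 0 < N := by positivity
    have hs : Real.sqrt 17 ^ 2 = 17 := Real.sq_sqrt (by norm_num)
    have hs4 : 4 < Real.sqrt 17 := by
      rw [Real.lt_sqrt (by norm_num)]; norm_num
    have h3 : 2 * (N / 16) * (N - g) < 2 * d * (N - g) := by
      have : 0 < N - g := by linarith
      nlinarith
    have h4 : g * (N - 2 * g) ≤ 2 * (N / 16) * (N - g) := by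
      have h5 : 0 ≤ ((9 - Real.sqrt 17) / 32 * N - g) * ((9 + Real.sqrt 17) / 32 * N - g) := by
        apply mul_nonneg
        · linarith
        · nlinarith
      have h6 : 2 * (N / 16) * (N - g) - g * (N - 2 * g) =
          2 * (((9 - Real.sqrt 17) / 32 * N - g) * ((9 + Real.sqrt 17) / 32 * N - g)) := by
        linear_combination (N ^ 2 / 512) * hs
      linarith
    linarith

end Pool.Agent.Results.MP_36bd7d_co.WalshBound
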